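import Pool.Agent.MWFE.StmtsC

set_option autoImplicit false

/-!
# MWFE, row FFE: the identity FE
-/

namespace Pool.Agent.MWFE.H44

open Pool.Agent.Helper14_MV Pool.Agent.Helper2_MV Pool.Agent.MVD Pool.Agent.MWFE
open Pool.Agent.MWE (Can XX fxy dxy dx dy up cp L4 pr Xs xl isx Fs nd nr)
open Pool.Agent.MWGR (cb)

theorem md (n a k : ℕ) : a + n * k ≡ a [MOD n] := by
  show (a + n * k) % n = a % n
  exact Nat.add_mul_mod_self_left a n k

/-- the normal form of the two tokens -/
theorem nf (p s : List ℕ) (x a b i j k i' j' : ℕ) :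
    p ++ ((List.replicate i x ++ a :: List.replicate j x) ++
      ((List.replicate i' x ++ b :: List.replicate j' x) ++ (List.replicate k x ++ s))) =
    p ++ (List.replicate i x ++ a :: (List.replicate (j + i') x ++
      b :: (List.replicate (j' + k) x ++ s))) := by
  rw [List.replicate_add, List.replicate_add]
  simp only [List.append_assoc, List.cons_append]

/-- change of the exponents -/
theorem ch (hp : PwlStmt) {n : ℕ} {β : FIC} (hz : Hz n β) (p s : List ℕ)
    (x a b i j k i' j' k' : ℕ)
    (h1 : i ≡ i' [MOD n]) (h2 : j ≡ j' [MOD n]) (h3 : k ≡ k' [MOD n])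
    (g1 : 2 ≤ i) (g2 : 2 ≤ i') (g3 : 2 ≤ j) (g4 : 2 ≤ j') (g5 : 2 ≤ k) (g6 : 2 ≤ k') :
    RR β (p ++ (List.replicate i x ++ a :: (List.replicate j x ++
        b :: (List.replicate k x ++ s))))
      (p ++ (List.replicate i' x ++ a :: (List.replicate j' x ++
        b :: (List.replicate k' x ++ s)))) := by
  have e1 := hp n β hz p (a :: (List.replicate j x ++ b :: (List.replicate k x ++ s))) x i i' h1 g1 g2
  have e2 := hp n β hz (p ++ (List.replicate i' x ++ [a])) (b :: (List.replicate k x ++ s)) x j j'
    h2 g3 g4
  have e3 := hp n β hz (p ++ (List.replicate i' x ++ a :: (List.replicate j' x ++ [b]))) s x k k'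
    h3 g5 g6
  simp only [List.append_assoc, List.cons_append, List.nil_append] at e2 e3
  exact β.trans (β.trans e1 e2) e3

/-- **FFE** -/
theorem ffe (hp : PwlStmt) : FfeStmt := by
  intro n β hz hf p q w r x a b hxa hxb hab hm
  have hn := hz.n2
  have hm2 : Mult w (p ++ (tk n x a 0 ++ (tk n x b 1 ++
      ((List.replicate (n + 1) x ++ q) ++ a :: (w ++ b :: r))))) := by
    intro d hd
    have h := hm d hd
    by_cases hdx : d = x
    · subst hdx
      unfold tk
      simp only [List.count_append, List.count_cons, List.count_replicate_self]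
      omega
    · have hxd : x ≠ d := fun e => hdx e.symm
      unfold tk
      simp only [List.count_append, List.count_cons, List.count_replicate, beq_iff_eq, hxd,
        if_false] at h ⊢
      omega
  have key := hf w p (List.replicate (n + 1) x ++ q) r x a b hxa hxb hab hm2
  unfold tk at key
  rw [List.append_assoc (List.replicate (n + 1) x) q] at key
  rw [nf, nf] at key
  have L := ch hp hz p (q ++ a :: (w ++ b :: r)) x a b n (n + 1) n (n + 0) (2 * n - 0 + (n + 1))
    (2 * n - 1 + (n + 1)) (by simp [Nat.ModEq])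
    (by
      have e : 2 * n - 0 + (n + 1) = (n + 1) + n * 2 := by omega
      rw [e]; exact (md _ _ _).symm)
    (by
      have e : 2 * n - 1 + (n + 1) = n + n * 2 := by omega
      rw [e]; exact (md _ _ _).symm)
    (by omega) (by omega) (by omega) (by omega) (by omega) (by omega)
  have R := ch hp hz p (q ++ a :: (w ++ b :: r)) x b a (n + 1) (2 * n - 1 + (n + 0))
    (2 * n - 0 + (n + 1)) (n + 1) (n + (n - 1) * 1) (n + 1) rfl
    (by
      have e : 2 * n - 1 + (n + 0) = (n + (n - 1) * 1) + n * 1 := by omega
      rw [e]; exact md _ _ _)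
    (by
      have e : 2 * n - 0 + (n + 1) = (n + 1) + n * 2 := by omega
      rw [e]; exact md _ _ _)
    (by omega) (by omega) (by omega) (by omega) (by omega) (by omega)
  exact β.trans (β.trans L key) R

end Pool.Agent.MWFE.H44
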